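import Pool.Agent.X98.KZ.Fin

set_option autoImplicit false
set_option linter.unusedSectionVars false

/-!
# Power series solutions in characteristic p
-/

namespace Pool.Agent.X98.SC

open Pool.Agent.X98.KZ

variable {ι : Type*} [Fintype ι] [DecidableEq ι] {r : Type*} [Fintype r] [DecidableEq r]

open PowerSeries

/-- The operator `Y ↦ Y' - A Y`. -/
noncomputable def Nab {R : Type*} [CommRing R] (A : Matrix r r R⟦X⟧) (Y : Matrix r r R⟦X⟧) :
    Matrix r r R⟦X⟧ := Y.map (derivative R) - A * Y

/-- Divisibility by a power of the variable. -/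
def Dv {R : Type*} [CommRing R] (m : ℕ) (Y : Matrix r r R⟦X⟧) : Prop :=
  ∀ i j, (X : R⟦X⟧) ^ m ∣ Y i j

section ring

variable {R : Type*} [CommRing R]

lemma Nab_add (A Y Z : Matrix r r R⟦X⟧) : Nab A (Y + Z) = Nab A Y + Nab A Z := by
  rw [Nab, Nab, Nab, Matrix.map_add _ (map_add _), mul_add]
  abel

lemma Nab_zero (A : Matrix r r R⟦X⟧) : Nab A 0 = 0 := by
  rw [Nab, mul_zero, sub_zero]
  ext1 a b
  simp

lemma Nab_mul (A Y Z : Matrix r r R⟦X⟧) :
    Nab A (Y * Z) = Nab A Y * Z + Y * Z.map (derivative R) := by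
  rw [Nab, Nab, mat_leibniz (derivative R)]
  rw [sub_mul, mul_assoc]
  abel

lemma Nab_smul (A : Matrix r r R⟦X⟧) (f : R⟦X⟧) (Y : Matrix r r R⟦X⟧) :
    Nab A (f • Y) = (derivative R f) • Y + f • Nab A Y := by
  rw [Nab, Nab, mat_smul (derivative R), mul_smul_comm, smul_sub]
  abel

lemma Dv_mono {m n : ℕ} (h : m ≤ n) {Y : Matrix r r R⟦X⟧} (hY : Dv n Y) : Dv m Y :=
  fun i j => (pow_dvd_pow _ h).trans (hY i j)

lemma Dv_zero (Y : Matrix r r R⟦X⟧) : Dv 0 Y := fun i j => by rw [pow_zero]; exact one_dvd _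

lemma Dv_mul_right {m : ℕ} {Y : Matrix r r R⟦X⟧} (hY : Dv m Y) (Z : Matrix r r R⟦X⟧) :
    Dv m (Y * Z) := fun i j => by
  rw [Matrix.mul_apply]
  exact Finset.dvd_sum fun c _ => (hY i c).mul_right _

lemma Dv_mul_left {m : ℕ} {Y : Matrix r r R⟦X⟧} (hY : Dv m Y) (Z : Matrix r r R⟦X⟧) :
    Dv m (Z * Y) := fun i j => by
  rw [Matrix.mul_apply]
  exact Finset.dvd_sum fun c _ => (hY c j).mul_left _

lemma Dv_sub {m : ℕ} {Y Z : Matrix r r R⟦X⟧} (hY : Dv m Y) (hZ : Dv m Z) : Dv m (Y - Z) :=
  fun i j => by rw [Matrix.sub_apply]; exact dvd_sub (hY i j) (hZ i j)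

lemma Dv_deriv {m : ℕ} {Y : Matrix r r R⟦X⟧} (hY : Dv m Y) :
    Dv (m - 1) (Y.map (derivative R)) := fun i j => by
  rw [Matrix.map_apply, X_pow_dvd_iff]
  intro n hn
  rw [coeff_derivative, X_pow_dvd_iff.mp (hY i j) (n + 1) (by omega), zero_mul]

lemma Dv_Nab {m : ℕ} (A : Matrix r r R⟦X⟧) {Y : Matrix r r R⟦X⟧} (hY : Dv m Y) :
    Dv (m - 1) (Nab A Y) :=
  Dv_sub (Dv_deriv hY) (Dv_mono (Nat.sub_le _ _) (Dv_mul_left hY _))

lemma Dv_iter {m : ℕ} (A : Matrix r r R⟦X⟧) {Y : Matrix r r R⟦X⟧} (hY : Dv m (Nab A Y)) (j : ℕ) :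
    Dv (m - j) ((Nab A)^[j + 1] Y) := by
  induction j with
  | zero => exact hY
  | succ j ih =>
    rw [Function.iterate_succ_apply']
    have := Dv_Nab A ih
    rwa [Nat.sub_sub] at this

lemma coeff_iter_derivative (j n : ℕ) (f : R⟦X⟧) :
    coeff n ((⇑(derivative R))^[j] f) = ((n + 1).ascFactorial j : R) * coeff (n + j) f := by
  induction j generalizing n with
  | zero => simp
  | succ j ih =>
    rw [Function.iterate_succ_apply', coeff_derivative, ih]
    have h1 : (n + 1).ascFactorial (j + 1) = (n + 1) * (n + 1 + 1).ascFactorial j := by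
      rw [Nat.succ_ascFactorial (n + 1) j, Nat.ascFactorial_succ]
    have h2 : n + 1 + j = n + (j + 1) := by omega
    rw [h1, h2]
    push_cast
    ring

lemma inv_of_const {Y : Matrix r r R⟦X⟧} (hY : Y.map constantCoeff = 1) : IsUnit Y.det := by
  rw [isUnit_iff_constantCoeff]
  have h1 : constantCoeff Y.det = (Y.map constantCoeff).det :=
    (RingHom.map_det constantCoeff Y)
  rw [h1, hY, Matrix.det_one]
  exact isUnit_one

end ring

section char

variable {k : Type*} [Field k] {p : ℕ} [CharP k p]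

lemma iter_derivative (hp : p.Prime) (f : k⟦X⟧) : (⇑(derivative k))^[p] f = 0 := by
  ext n
  rw [coeff_iter_derivative, map_zero]
  have h1 : (((n + 1).ascFactorial p : ℕ) : k) = 0 := by
    rw [CharP.cast_eq_zero_iff k p]
    exact (Nat.dvd_factorial hp.pos le_rfl).trans (Nat.factorial_dvd_ascFactorial _ _)
  rw [h1, zero_mul]

lemma iter_derivative_mat (hp : p.Prime) (Y : Matrix r r k⟦X⟧) :
    (fun Y : Matrix r r k⟦X⟧ => Y.map (derivative k))^[p] Y = 0 := by
  have h : ∀ j (Y : Matrix r r k⟦X⟧), (fun Y : Matrix r r k⟦X⟧ => Y.map (derivative k))^[j] Y =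
      Y.map ((⇑(derivative k))^[j]) := by
    intro j
    induction j with
    | zero => intro Y; ext1 a b; rfl
    | succ j ih =>
      intro Y
      rw [Function.iterate_succ_apply, ih]
      ext1 a b
      rw [Matrix.map_apply, Matrix.map_apply, Matrix.map_apply, Function.iterate_succ_apply]
  rw [h]
  ext1 a b
  rw [Matrix.map_apply, iter_derivative hp, Matrix.zero_apply]

lemma natCast_mat (R : Type*) [CommRing R] [CharP R p] : ((p : ℕ) : Matrix r r R) = 0 := by
  rw [← Matrix.diagonal_natCast, CharP.cast_eq_zero, Matrix.diagonal_zero]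

/-- The p-curvature is linear. -/
lemma Nab_p (hp : p.Prime) (A Y : Matrix r r k⟦X⟧) :
    (Nab A)^[p] Y = (Nab A)^[p] 1 * Y := by
  have hc : CharP k⟦X⟧ p := charP_of_injective_ringHom (C_injective (R := k)) p
  have h := iter_leibniz_char (Nab A) (fun Y : Matrix r r k⟦X⟧ => Y.map (derivative k))
    (Nab_add A) (Nab_zero A) (Nab_mul A) hp (natCast_mat k⟦X⟧) 1 Y
  rwa [one_mul, iter_derivative_mat hp, mul_zero, add_zero] at h

/-- The p-curvature is horizontal. -/
lemma horizontal (hp : p.Prime) (A : Matrix r r k⟦X⟧) :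
    ((Nab A)^[p] 1).map (derivative k) = A * (Nab A)^[p] 1 - (Nab A)^[p] 1 * A := by
  have h1 : Nab A ((Nab A)^[p] 1) = (Nab A)^[p] (Nab A 1) :=
    (Function.iterate_succ_apply' (Nab A) p 1).symm.trans (Function.iterate_succ_apply (Nab A) p 1)
  have h2 : Nab A 1 = -A := by
    rw [Nab, mul_one]
    have : (1 : Matrix r r k⟦X⟧).map (derivative k) = 0 := by
      ext1 a b
      rw [Matrix.map_apply, Matrix.one_apply, Matrix.zero_apply]
      split_ifs <;> simp
    rw [this, zero_sub]
  rw [h2, Nab_p hp A (-A), Nab, mul_neg, sub_eq_iff_eq_add] at h1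
  rw [h1]
  abel

/-- The order is a multiple of `p`. -/
lemma Dv_succ (hp : p.Prime) (A : Matrix r r k⟦X⟧) {m : ℕ} (hm : ¬ p ∣ m)
    (h : Dv m ((Nab A)^[p] 1)) : Dv (m + 1) ((Nab A)^[p] 1) := by
  intro i j
  rw [X_pow_dvd_iff]
  intro n hn
  rcases Nat.lt_succ_iff_lt_or_eq.mp hn with h1 | h1
  · exact X_pow_dvd_iff.mp (h i j) n h1
  · subst h1
    obtain ⟨q, hq⟩ : ∃ q, n = q + 1 := by
      rcases n with _ | q
      · exact absurd (dvd_zero p) hm
      · exact ⟨q, rfl⟩
    have h2 := congrArg (coeff q) (congrFun (congrFun (horizontal hp A) i) j)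
    have h3 := X_pow_dvd_iff.mp (Dv_sub (Dv_mul_left h A) (Dv_mul_right h A) i j) q (by omega)
    rw [h3, Matrix.map_apply, coeff_derivative, ← hq] at h2
    have h4 : (q : k) + 1 ≠ 0 := by
      intro h0
      apply hm
      rw [← CharP.cast_eq_zero_iff k p, hq]
      push_cast
      exact h0
    exact (mul_eq_zero.mp h2).resolve_right h4

lemma Dv_block (hp : p.Prime) (A : Matrix r r k⟦X⟧) (q : ℕ)
    (h : Dv (q * p + 1) ((Nab A)^[p] 1)) : Dv ((q + 1) * p) ((Nab A)^[p] 1) := by
  have h1 : ∀ s, s + 1 ≤ p → Dv (q * p + 1 + s) ((Nab A)^[p] 1) := by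
    intro s
    induction s with
    | zero => intro _; exact h
    | succ s ih =>
      intro hs
      have h2 : ¬ p ∣ q * p + 1 + s := by
        rw [add_assoc, Nat.dvd_add_right (Dvd.intro_left q rfl)]
        intro h3
        have := Nat.le_of_dvd (by omega) h3
        omega
      exact Dv_succ hp A h2 (ih (by omega))
  have h2 := h1 (p - 1) (by have := hp.pos; omega)
  have h3 : q * p + 1 + (p - 1) = (q + 1) * p := by
    have := hp.pos
    rw [add_mul, one_mul]
    omega
  rwa [h3] at h2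

/-- From an approximate fundamental matrix. -/
lemma Dv_of_sol (hp : p.Prime) (A Y : Matrix r r k⟦X⟧) (hY0 : Y.map constantCoeff = 1) (M : ℕ)
    (hY : Dv M (Nab A Y)) : Dv (M - (p - 1)) ((Nab A)^[p] 1) := by
  have h1 := Dv_iter A hY (p - 1)
  have h2 : p - 1 + 1 = p := by have := hp.pos; omega
  rw [h2, Nab_p hp] at h1
  have h3 := Dv_mul_right h1 Y⁻¹
  rwa [mul_assoc, Matrix.mul_nonsing_inv _ (inv_of_const hY0), mul_one] at h3

end char

/-! ### Comparison with the polynomial matrices -/

section comp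

variable {R : Type*} [CommRing R]

/-- A polynomial matrix as a matrix of power series. -/
noncomputable def toPS (Q : Matrix r r (Polynomial R)) : Matrix r r R⟦X⟧ :=
  Q.map (fun f => (f : R⟦X⟧))

/-- The product of the `x - z i`. -/
noncomputable def TT (z : ι → R) : Polynomial R := ∏ l, (Polynomial.X - Polynomial.C (z l))

/-- The numerator of the system. -/
noncomputable def NN (A : ι → Matrix r r R) (z : ι → R) : Matrix r r (Polynomial R) :=
  ∑ i, Tc z i • (A i).map Polynomial.C

lemma toPS_mul (P Q : Matrix r r (Polynomial R)) : toPS (P * Q) = toPS P * toPS Q := by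
  ext1 a b
  rw [toPS, Matrix.map_apply, Matrix.mul_apply, Matrix.mul_apply]
  have h : ((∑ j, P a j * Q j b : Polynomial R) : R⟦X⟧) =
      Polynomial.coeToPowerSeries.ringHom (∑ j, P a j * Q j b) := rfl
  rw [h, map_sum]
  refine Finset.sum_congr rfl fun c _ => ?_
  rw [map_mul]
  rfl

lemma toPS_sub (P Q : Matrix r r (Polynomial R)) : toPS (P - Q) = toPS P - toPS Q := by
  ext1 a b
  exact map_sub (Polynomial.coeToPowerSeries.ringHom (R := R)) _ _

lemma toPS_smul (f : Polynomial R) (Q : Matrix r r (Polynomial R)) :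
    toPS (f • Q) = (f : R⟦X⟧) • toPS Q := by
  ext1 a b
  exact map_mul (Polynomial.coeToPowerSeries.ringHom (R := R)) _ _

lemma toPS_one : toPS (1 : Matrix r r (Polynomial R)) = 1 := by
  ext1 a b
  rw [toPS, Matrix.map_apply, Matrix.one_apply, Matrix.one_apply]
  split_ifs <;> simp

lemma toPS_derivative (Q : Matrix r r (Polynomial R)) :
    toPS (Q.map (fun f => Polynomial.derivative f)) = (toPS Q).map (derivative R) := by
  ext1 a b
  simp only [toPS, Matrix.map_apply]
  rw [derivative_coe]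

lemma toPS_curv (A : ι → Matrix r r R) (z : ι → R) (S : R⟦X⟧)
    (hS : S * ((TT z : Polynomial R) : R⟦X⟧) = 1) (j : ℕ) :
    toPS (curv A z j) = ((TT z : Polynomial R) : R⟦X⟧) ^ j • (Nab (S • toPS (NN A z)))^[j] 1 := by
  induction j with
  | zero => rw [curv, toPS_one, pow_zero, one_smul]; rfl
  | succ j ih =>
    rw [Function.iterate_succ_apply']
    set Cj := (Nab (S • toPS (NN A z)))^[j] 1 with hCj
    have h1 : toPS (curv A z (j + 1)) = ((TT z : Polynomial R) : R⟦X⟧) •
        (toPS (curv A z j)).map (derivative R) -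
        ((j : R⟦X⟧) * derivative R ((TT z : Polynomial R) : R⟦X⟧)) • toPS (curv A z j) -
        toPS (NN A z) * toPS (curv A z j) := by
      rw [curv, toPS_sub, toPS_sub, toPS_smul, toPS_smul, toPS_derivative, toPS_mul]
      congr 2
      · congr 1
        rw [derivative_coe, TT, Polynomial.coe_mul]
        congr 1
        exact map_natCast (Polynomial.coeToPowerSeries.ringHom (R := R)) j
    rw [h1, ih]
    set T : R⟦X⟧ := ((TT z : Polynomial R) : R⟦X⟧) with hT
    set N := toPS (NN A z) with hN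
    rw [mat_smul (derivative R), Nab, Derivation.leibniz_pow, smul_mul_assoc, smul_sub, smul_add]
    have h2 : T • (j • T ^ (j - 1) • derivative R T) • Cj = ((j : R⟦X⟧) * derivative R T) • T ^ j • Cj := by
      rcases j with _ | j
      · simp
      · rw [smul_smul, smul_smul, Nat.add_sub_cancel]
        congr 1
        simp only [nsmul_eq_mul, smul_eq_mul]
        push_cast
        ring
    have h3 : T ^ (j + 1) • S • (N * Cj) = N * T ^ j • Cj := by
      rw [smul_smul, mul_smul_comm]
      congr 1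
      rw [pow_succ]
      linear_combination T ^ j * hS
    have h4 : T • T ^ j • Cj.map (derivative R) = T ^ (j + 1) • Cj.map (derivative R) := by
      rw [smul_smul, ← pow_succ']
    rw [h2, h3, h4]
    abel

lemma natDegree_Tc (z : ι → R) (i : ι) : (Tc z i).natDegree ≤ Fintype.card ι - 1 := by
  rw [Tc]
  refine (Polynomial.natDegree_prod_le _ _).trans ?_
  have h1 : ∑ l ∈ Finset.univ.erase i, (Polynomial.X - Polynomial.C (z l)).natDegree ≤
      ∑ _l ∈ Finset.univ.erase i, 1 := by
    refine Finset.sum_le_sum fun l _ => Polynomial.natDegree_X_sub_C_le _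
  refine h1.trans ?_
  rw [Finset.sum_const, smul_eq_mul, mul_one, Finset.card_erase_of_mem (Finset.mem_univ _),
    Finset.card_univ]

lemma natDegree_curv (A : ι → Matrix r r R) (z : ι → R) (j : ℕ) (a b : r) :
    (curv A z j a b).natDegree ≤ j * (Fintype.card ι - 1) := by
  rw [curv_eq, Matrix.map_apply, th]
  exact MvPolynomial.aeval_natDegree_le _ (P_homog A j a b).totalDegree_le _ fun i => by
    rw [Polynomial.natDegree_neg]
    exact natDegree_Tc z i

end comp

section res

variable {k : Type*} [Field k] {p : ℕ} [CharP k p]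

lemma curv_eval (A : ι → Matrix r r k) (z : ι → k) (i : ι)
    (h : Polynomial.aeval (A i) (hh k p) = 0) (a b : r) : (curv A z p a b).eval (z i) = 0 := by
  rw [curv_eq]
  have h0 : ∀ l, l ≠ i → (Tc z l).eval (z i) = 0 := by
    intro l hl
    rw [Tc, Polynomial.eval_prod, Finset.prod_eq_zero (Finset.mem_erase.mpr
      ⟨Ne.symm hl, Finset.mem_univ i⟩)]
    rw [Polynomial.eval_sub, Polynomial.eval_X, Polynomial.eval_C, sub_self]
  have h1 := P_eval A {i} p
  rw [Finset.sum_singleton] at h1
  rw [hh] at h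
  rw [h] at h1
  have h3 : Polynomial.eval (z i) (th z (P A p a b)) =
      MvPolynomial.eval (fun l => (-(Tc z i).eval (z i)) * (if l ∈ ({i} : Finset ι) then 1 else 0))
        (P A p a b) := by
    have h4 : ((Polynomial.evalRingHom (z i)).comp (th z : MvPolynomial ι k →+* Polynomial k)) =
        MvPolynomial.eval (fun l => (-(Tc z i).eval (z i)) *
          (if l ∈ ({i} : Finset ι) then 1 else 0)) := by
      apply MvPolynomial.ringHom_ext
      · intro c
        simp [th]
      · intro l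
        rw [RingHom.comp_apply, MvPolynomial.eval_X]
        show Polynomial.eval (z i) (th z (MvPolynomial.X l)) = _
        rw [th, MvPolynomial.aeval_X, Polynomial.eval_neg]
        by_cases hl : l = i
        · subst hl
          rw [if_pos (Finset.mem_singleton_self _), mul_one]
        · rw [if_neg (by rw [Finset.mem_singleton]; exact hl), mul_zero, h0 l hl, neg_zero]
    exact congrArg (fun g : MvPolynomial ι k →+* k => g (P A p a b)) h4
  rw [Matrix.map_apply, h3, eval_scale (P_homog A p a b)]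
  have h5 := congrFun (congrFun h1 a) b
  rw [Matrix.map_apply, Matrix.zero_apply] at h5
  rw [h5, mul_zero]

/-- The first part in characteristic `p`. -/
theorem char_main (hp : p.Prime) (A : ι → Matrix r r k) (z : ι → k) (hz : ∀ i, z i ≠ 0) (i₀ : ι)
    (hA : Polynomial.aeval (A i₀) (hh k p) = 0) (S : k⟦X⟧)
    (hS : S * ((TT z : Polynomial k) : k⟦X⟧) = 1) (Y : Matrix r r k⟦X⟧)
    (hY0 : Y.map constantCoeff = 1)
    (hY : Dv ((Fintype.card ι - 1) * p) (Nab (S • toPS (NN A z)) Y)) : curv A z p = 0 := by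
  have h1 : Dv ((Fintype.card ι - 1) * p) ((Nab (S • toPS (NN A z)))^[p] 1) := by
    have h2 := Dv_of_sol hp _ Y hY0 _ hY
    rcases Nat.eq_zero_or_pos (Fintype.card ι - 1) with h0 | h0
    · rw [h0, zero_mul]; exact Dv_zero _
    · obtain ⟨q, hq⟩ : ∃ q, Fintype.card ι - 1 = q + 1 := ⟨Fintype.card ι - 1 - 1, by omega⟩
      rw [hq] at h2 ⊢
      apply Dv_block hp
      refine Dv_mono ?_ h2
      rw [add_mul, one_mul]
      have := hp.pos
      omega
  ext1 a b
  have h2 := toPS_curv A z S hS p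
  have h3 : (X : k⟦X⟧) ^ ((Fintype.card ι - 1) * p) ∣ toPS (curv A z p) a b := by
    rw [h2, Matrix.smul_apply, smul_eq_mul]
    exact (h1 a b).mul_left _
  rw [X_pow_dvd_iff] at h3
  have h4 := natDegree_curv A z p a b
  have h5 := curv_eval A z i₀ hA a b
  set f := curv A z p a b with hf
  set M := (Fintype.card ι - 1) * p with hM
  have h6 : ∀ m, m ≠ M → f.coeff m = 0 := by
    intro m hm
    rcases Nat.lt_or_ge m M with h | h
    · have := h3 m h
      rw [toPS, Matrix.map_apply, Polynomial.coeff_coe] at this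
      exact this
    · apply Polynomial.coeff_eq_zero_of_natDegree_lt
      rw [mul_comm] at h4
      omega
  have h7 : f = Polynomial.C (f.coeff M) * Polynomial.X ^ M := by
    ext m
    rw [Polynomial.coeff_C_mul, Polynomial.coeff_X_pow]
    split_ifs with h
    · rw [h, mul_one]
    · rw [h6 m h, mul_zero]
  rw [h7, Polynomial.eval_mul, Polynomial.eval_C, Polynomial.eval_pow, Polynomial.eval_X] at h5
  have h8 := (mul_eq_zero.mp h5).resolve_right (pow_ne_zero _ (hz i₀))
  rw [h7, h8, Polynomial.C_0, zero_mul, Matrix.zero_apply]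

/-- The second part in characteristic `p`. -/
theorem char_KZ (hp : p.Prime) (A : ι → Matrix r r k) (hKZ : KZType A) (z : ι → k)
    (hz : ∀ i, z i ≠ 0) (hinj : Function.Injective z)
    (hA : ∀ i, Polynomial.aeval (A i) (hh k p) = 0) (S : k⟦X⟧)
    (hS : S * ((TT z : Polynomial k) : k⟦X⟧) = 1) (Y : Matrix r r k⟦X⟧)
    (hY0 : Y.map constantCoeff = 1)
    (hY : Dv p (Nab (S • toPS (NN A z)) Y)) (z' : ι → k) : curv A z' p = 0 := by
  have h1 : Dv 1 ((Nab (S • toPS (NN A z)))^[p] 1) := by
    refine Dv_mono ?_ (Dv_of_sol hp _ Y hY0 _ hY)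
    have := hp.pos
    omega
  have h2 : P A p = 0 := by
    refine P_of_point hp A hKZ hA z hinj 0 (fun i => (hz i).symm) ?_
    ext1 a b
    have h2 := toPS_curv A z S hS p
    have h3 : (X : k⟦X⟧) ^ 1 ∣ toPS (curv A z p) a b := by
      rw [h2, Matrix.smul_apply, smul_eq_mul]
      exact (h1 a b).mul_left _
    rw [X_pow_dvd_iff] at h3
    have h4 := h3 0 (by omega)
    rw [toPS, Matrix.map_apply, Polynomial.coeff_coe] at h4
    rw [Matrix.map_apply, Matrix.zero_apply, ← Polynomial.coeff_zero_eq_eval_zero]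
    exact h4
  rw [curv_eq, h2]
  ext1 a b
  simp

end res

end Pool.Agent.X98.SC
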