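import Pool.Agent.X98.SC.Char

set_option autoImplicit false
set_option linter.unusedSectionVars false

/-!
# Integrality of the coefficients up to the square of the prime
-/

namespace Pool.Agent.X98.SC

open Pool.Agent.X98.KZ PowerSeries

variable {ι : Type*} [Fintype ι] [DecidableEq ι] {r : Type*} [Fintype r] [DecidableEq r]

/-- The coefficient matrices. -/
noncomputable def cm {R : Type*} [CommRing R] (m : ℕ) (Y : Matrix r r R⟦X⟧) : Matrix r r R :=
  Y.map (coeff m)

section cm

variable {R : Type*} [CommRing R]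

lemma cm_mul (m : ℕ) (Y Z : Matrix r r R⟦X⟧) :
    cm m (Y * Z) = ∑ ij ∈ Finset.HasAntidiagonal.antidiagonal m, cm ij.1 Y * cm ij.2 Z := by
  ext1 a b
  rw [cm, Matrix.map_apply, Matrix.mul_apply, map_sum, Matrix.sum_apply]
  simp only [coeff_mul, Matrix.mul_apply]
  rw [Finset.sum_comm]
  rfl

lemma cm_deriv (m : ℕ) (Y : Matrix r r R⟦X⟧) :
    cm m (Y.map (derivative R)) = ((m + 1 : ℕ) : R) • cm (m + 1) Y := by
  ext1 a b
  simp only [cm, Matrix.map_apply, Matrix.smul_apply, smul_eq_mul, coeff_derivative]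
  push_cast
  ring

lemma cm_zero_eq (Y : Matrix r r R⟦X⟧) : cm 0 Y = Y.map constantCoeff := by
  ext1 a b
  rw [cm, Matrix.map_apply, Matrix.map_apply, coeff_zero_eq_constantCoeff_apply]

lemma cm_sub (m : ℕ) (Y Z : Matrix r r R⟦X⟧) : cm m (Y - Z) = cm m Y - cm m Z := by
  ext1 a b
  simp [cm]

lemma cm_add (m : ℕ) (Y Z : Matrix r r R⟦X⟧) : cm m (Y + Z) = cm m Y + cm m Z := by
  ext1 a b
  simp [cm]

lemma cm_one_zero : cm 0 (1 : Matrix r r R⟦X⟧) = 1 := by
  rw [cm_zero_eq, Matrix.map_one _ (map_zero _) (map_one _)]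

lemma Dv_iff (m : ℕ) (Y : Matrix r r R⟦X⟧) : Dv m Y ↔ ∀ n, n < m → cm n Y = 0 := by
  constructor
  · intro h n hn
    ext1 a b
    exact X_pow_dvd_iff.mp (h a b) n hn
  · intro h a b
    rw [X_pow_dvd_iff]
    intro n hn
    exact congrFun (congrFun (h n hn) a) b

end cm

variable {O F : Type*} [CommRing O] [Field F] (φ : O →+* F)

/-- Change of coefficients. -/
noncomputable def mp {R R' : Type*} [CommRing R] [CommRing R'] (φ : R →+* R')
    (Y : Matrix r r R⟦X⟧) : Matrix r r R'⟦X⟧ := Y.map (PowerSeries.map φ)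

lemma cm_mp {R R' : Type*} [CommRing R] [CommRing R'] (φ : R →+* R') (m : ℕ)
    (Y : Matrix r r R⟦X⟧) : cm m (mp φ Y) = (cm m Y).map φ := by
  ext1 a b
  simp [cm, mp]

lemma mp_mul {R R' : Type*} [CommRing R] [CommRing R'] (φ : R →+* R')
    (Y Z : Matrix r r R⟦X⟧) : mp φ (Y * Z) = mp φ Y * mp φ Z := Matrix.map_mul

lemma mp_sub {R R' : Type*} [CommRing R] [CommRing R'] (φ : R →+* R')
    (Y Z : Matrix r r R⟦X⟧) : mp φ (Y - Z) = mp φ Y - mp φ Z := by
  ext1 a b
  simp [mp]

lemma mp_add {R R' : Type*} [CommRing R] [CommRing R'] (φ : R →+* R')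
    (Y Z : Matrix r r R⟦X⟧) : mp φ (Y + Z) = mp φ Y + mp φ Z := by
  ext1 a b
  simp [mp]

lemma mp_one {R R' : Type*} [CommRing R] [CommRing R'] (φ : R →+* R') :
    mp φ (1 : Matrix r r R⟦X⟧) = 1 := Matrix.map_one _ (map_zero _) (map_one _)

lemma mp_smul {R R' : Type*} [CommRing R] [CommRing R'] (φ : R →+* R') (f : R⟦X⟧)
    (Y : Matrix r r R⟦X⟧) : mp φ (f • Y) = PowerSeries.map φ f • mp φ Y := by
  ext1 a b
  simp [mp]

lemma mp_deriv {R R' : Type*} [CommRing R] [CommRing R'] (φ : R →+* R')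
    (Y : Matrix r r R⟦X⟧) : mp φ (Y.map (derivative R)) = (mp φ Y).map (derivative R') := by
  ext a b n
  simp [mp, coeff_derivative]

lemma mp_Nab {R R' : Type*} [CommRing R] [CommRing R'] (φ : R →+* R')
    (A Y : Matrix r r R⟦X⟧) : mp φ (Nab A Y) = Nab (mp φ A) (mp φ Y) := by
  rw [Nab, Nab, mp_sub, mp_mul, mp_deriv]

/-- Matrices with entries from `O`. -/
def IntM (M : Matrix r r F) : Prop := ∃ M' : Matrix r r O, M'.map φ = M

lemma IntM.mul {M N : Matrix r r F} (hM : IntM φ M) (hN : IntM φ N) : IntM φ (M * N) := by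
  obtain ⟨M', rfl⟩ := hM
  obtain ⟨N', rfl⟩ := hN
  exact ⟨M' * N', Matrix.map_mul⟩

lemma IntM.sum {α : Type*} (s : Finset α) {f : α → Matrix r r F} (h : ∀ i ∈ s, IntM φ (f i)) :
    IntM φ (∑ i ∈ s, f i) := by
  classical
  induction s using Finset.induction_on with
  | empty => exact ⟨0, by ext; simp⟩
  | insert i s hi ih =>
    rw [Finset.sum_insert hi]
    obtain ⟨M, hM⟩ := h i (Finset.mem_insert_self i s)
    obtain ⟨N, hN⟩ := ih fun j hj => h j (Finset.mem_insert_of_mem hj)
    exact ⟨M + N, by rw [Matrix.map_add _ (map_add φ), hM, hN]⟩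

lemma IntM.smul (c : O) {M : Matrix r r F} (h : IntM φ M) : IntM φ (φ c • M) := by
  obtain ⟨M', rfl⟩ := h
  refine ⟨c • M', ?_⟩
  ext1 a b
  simp

lemma IntM.map (M : Matrix r r O) : IntM φ (M.map φ) := ⟨M, rfl⟩

variable {φ}

/-- The recursion for the coefficients. -/
lemma rec_sum (G : Matrix r r O⟦X⟧) (V : Matrix r r F⟦X⟧) (m : ℕ)
    (h : ∀ j ≤ m, IntM φ (cm j V)) : IntM φ (cm m (mp φ G * V)) := by
  rw [cm_mul]
  refine IntM.sum φ _ fun ij hij => ?_
  rw [Finset.HasAntidiagonal.mem_antidiagonal] at hij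
  rw [cm_mp]
  exact (IntM.map φ _).mul φ (h _ (by omega))

lemma int_step {p : ℕ} (hunit : ∀ m : ℕ, ¬ p ∣ m → IsUnit (m : O)) (G : Matrix r r O⟦X⟧)
    (V : Matrix r r F⟦X⟧) (hV : V.map (derivative F) = mp φ G * V) (m : ℕ)
    (hm : ¬ p ∣ m + 1) (h : ∀ j ≤ m, IntM φ (cm j V)) : IntM φ (cm (m + 1) V) := by
  have h1 := rec_sum G V m h
  rw [← hV, cm_deriv] at h1
  obtain ⟨u, hu⟩ := (hunit (m + 1) hm).exists_left_inv
  have h2 := h1.smul φ u
  rw [smul_smul, ← map_natCast φ, ← map_mul, hu, map_one, one_smul] at h2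
  exact h2

/-- If the coefficients at the multiples of `p` are integral then all are. -/
lemma int_all {p : ℕ} (hunit : ∀ m : ℕ, ¬ p ∣ m → IsUnit (m : O)) (G : Matrix r r O⟦X⟧)
    (V : Matrix r r F⟦X⟧) (hV : V.map (derivative F) = mp φ G * V) (M : ℕ)
    (h : ∀ j, j * p ≤ M → IntM φ (cm (j * p) V)) : ∀ m, m ≤ M → IntM φ (cm m V) := by
  intro m
  induction m using Nat.strong_induction_on with
  | _ m ih =>
    intro hm
    by_cases hd : p ∣ m
    · obtain ⟨j, rfl⟩ := hd
      rw [mul_comm] at hm ⊢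
      exact h j hm
    · rcases m with _ | m
      · exact absurd (dvd_zero p) hd
      · exact int_step hunit G V hV m hd fun j hj => ih j (by omega) (by omega)

/-- Integrality up to the square of `p`. -/
lemma int_sq {p : ℕ} (hpF : (p : F) ≠ 0)
    (hunit : ∀ m : ℕ, ¬ p ∣ m → IsUnit (m : O)) (G : Matrix r r O⟦X⟧)
    (V : Matrix r r F⟦X⟧) (hV : V.map (derivative F) = (p : F⟦X⟧) • (mp φ G * V))
    (hV0 : cm 0 V = 1) : ∀ m, m < p ^ 2 → IntM φ (cm m V) := by
  intro m
  induction m using Nat.strong_induction_on with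
  | _ m ih =>
    intro hm
    rcases m with _ | m
    · rw [hV0]
      exact ⟨1, Matrix.map_one _ (map_zero _) (map_one _)⟩
    · have h1 : IntM φ (cm m (mp φ G * V)) :=
        rec_sum G V m fun j hj => ih j (by omega) (by omega)
      have h2 : ((m + 1 : ℕ) : F) • cm (m + 1) V = (p : F) • cm m (mp φ G * V) := by
        rw [← cm_deriv, hV]
        ext1 a b
        simp only [cm, Matrix.map_apply, Matrix.smul_apply, smul_eq_mul]
        have : ((p : ℕ) : F⟦X⟧) = C (p : F) := (map_natCast (C (R := F)) p).symm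
        rw [this, coeff_C_mul]
      by_cases hd : p ∣ m + 1
      · obtain ⟨q, hq⟩ := hd
        have hqp : ¬ p ∣ q := by
          intro h3
          obtain ⟨q', rfl⟩ := h3
          have : p ^ 2 ≤ m + 1 := by
            rw [hq, ← mul_assoc, ← pow_two]
            have : q' ≠ 0 := by
              rintro rfl
              simp at hq
            exact Nat.le_mul_of_pos_right _ (Nat.pos_of_ne_zero this)
          omega
        obtain ⟨u, hu⟩ := (hunit q hqp).exists_left_inv
        have h3 : (q : F) • cm (m + 1) V = cm m (mp φ G * V) := by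
          rw [hq] at h2
          push_cast at h2
          rw [← smul_smul] at h2
          rw [← hq] at h2
          have h4 := congrArg (fun Y => (p : F)⁻¹ • Y) h2
          simp only [smul_smul, inv_mul_cancel₀ hpF, one_smul] at h4
          rw [← h4, ← mul_assoc, inv_mul_cancel₀ hpF, one_mul]
        have h4 := h1.smul φ u
        rw [← h3, smul_smul, ← map_natCast φ, ← map_mul, hu, map_one, one_smul] at h4
        exact h4
      · obtain ⟨u, hu⟩ := (hunit (m + 1) hd).exists_left_inv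
        have h4 := h1.smul φ (u * p)
        have h5 : φ (u * p) • cm m (mp φ G * V) = φ u • ((p : F) • cm m (mp φ G * V)) := by
          rw [smul_smul, map_mul, map_natCast]
        rw [h5, ← h2, smul_smul, ← map_natCast φ, ← map_mul, hu, map_one, one_smul] at h4
        exact h4

/-- The approximate solution matrix. -/
lemma exists_W {p : ℕ} (hp : p.Prime) (hunit : ∀ m : ℕ, ¬ p ∣ m → IsUnit (m : O))
    (A E : Matrix r r O⟦X⟧) (hE : (Nab A)^[p] 1 = (p : O⟦X⟧) • E) :
    ∃ W E' : Matrix r r O⟦X⟧, cm 0 W = 1 ∧ Nab A W = (p : O⟦X⟧) • E' := by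
  have hfac : ∀ j, ∃ v : O, j < p → v * (j.factorial : O) = 1 := by
    intro j
    by_cases h : j < p
    · have h1 : ¬ p ∣ j.factorial := by
        rw [hp.dvd_factorial]; omega
      obtain ⟨u, hu⟩ := (hunit _ h1).exists_left_inv
      exact ⟨u, fun _ => hu⟩
    · exact ⟨0, fun h' => absurd h' h⟩
  choose v hv using hfac
  have hv1 : ∀ j, j + 1 < p → v (j + 1) * ((j : O) + 1) = v j := by
    intro j hj
    have h1 := hv (j + 1) hj
    have h2 := hv j (by omega)
    rw [Nat.factorial_succ] at h1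
    push_cast at h1
    linear_combination v j * h1 - v (j + 1) * (j + 1) * h2
  set Cc : ℕ → Matrix r r O⟦X⟧ := fun j => (Nab A)^[j] 1 with hCc
  have hC1 : ∀ j, Nab A (Cc j) = Cc (j + 1) := fun j =>
    (Function.iterate_succ_apply' (Nab A) j 1).symm
  set w : ℕ → O⟦X⟧ := fun j => (-X) ^ j * C (v j) with hw
  have hdw : ∀ j, j + 1 < p → derivative O (w (j + 1)) = -w j := by
    intro j hj
    simp only [hw]
    rw [Derivation.leibniz, Derivation.leibniz_pow, derivative_C, map_neg, derivative_X,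
      smul_zero, zero_add, ← hv1 j hj, Nat.add_sub_cancel]
    simp only [nsmul_eq_mul, smul_eq_mul, map_mul, map_add, map_one]
    have : (C (j : O) : O⟦X⟧) = (j : O⟦X⟧) := map_natCast _ _
    rw [this]
    push_cast
    ring
  have hdw0 : derivative O (w 0) = 0 := by
    simp [hw]
  set W : ℕ → Matrix r r O⟦X⟧ := fun q => ∑ j ∈ Finset.range (q + 1), w j • Cc j with hW
  have hNW : ∀ q, q < p → Nab A (W q) = w q • Cc (q + 1) := by
    intro q
    induction q with
    | zero =>
      intro _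
      simp only [hW]
      rw [Finset.sum_range_succ, Finset.sum_range_zero, zero_add, Nab_smul, hdw0, zero_smul,
        zero_add, hC1]
    | succ q ih =>
      intro hq
      have h1 : W (q + 1) = W q + w (q + 1) • Cc (q + 1) := Finset.sum_range_succ _ _
      rw [h1, Nab_add, ih (by omega), Nab_smul, hdw q hq, hC1, neg_smul, add_neg_cancel_left]
  obtain ⟨q, hq⟩ : ∃ q, p = q + 1 := ⟨p - 1, by have := hp.pos; omega⟩
  refine ⟨W q, w q • E, ?_, ?_⟩
  · have h1 : ∀ m, cm 0 (W m) = 1 := by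
      intro m
      induction m with
      | zero =>
        simp only [hW]
        rw [Finset.sum_range_succ, Finset.sum_range_zero, zero_add]
        have h2 : w 0 = 1 := by
          simp only [hw]
          have := hv 0 hp.pos
          rw [Nat.factorial_zero, Nat.cast_one, mul_one] at this
          rw [this, pow_zero, one_mul, map_one]
        rw [h2, one_smul]
        exact cm_one_zero
      | succ m ih =>
        have h2 : W (m + 1) = W m + w (m + 1) • Cc (m + 1) := Finset.sum_range_succ _ _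
        rw [h2, cm_add, ih]
        have h3 : cm 0 (w (m + 1) • Cc (m + 1)) = 0 := by
          ext1 a b
          simp only [cm, Matrix.map_apply, Matrix.smul_apply, smul_eq_mul, hw, Matrix.zero_apply]
          rw [coeff_zero_eq_constantCoeff_apply]
          simp
        rw [h3, add_zero]
    exact h1 q
  · rw [hNW q (by omega), ← hq]
    have h2 : Cc p = (p : O⟦X⟧) • E := hE
    rw [h2, smul_comm]

/-- Integrality up to the square of `p` from the vanishing of the p-curvature. -/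
theorem lift_sq {p : ℕ} (hp : p.Prime) (hpF : (p : F) ≠ 0)
    (hunit : ∀ m : ℕ, ¬ p ∣ m → IsUnit (m : O)) (A E : Matrix r r O⟦X⟧)
    (hE : (Nab A)^[p] 1 = (p : O⟦X⟧) • E) (U : Matrix r r F⟦X⟧)
    (hU : U.map (derivative F) = mp φ A * U) (hU0 : cm 0 U = 1) :
    ∀ m, m < p ^ 2 → IntM φ (cm m U) := by
  obtain ⟨W, E', hW0, hW⟩ := exists_W hp hunit A E hE
  have hdet : IsUnit W.det := inv_of_const (by rw [← cm_zero_eq]; exact hW0)
  have hWi : W * W⁻¹ = 1 := Matrix.mul_nonsing_inv _ hdet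
  have hWi' : W⁻¹ * W = 1 := Matrix.nonsing_inv_mul _ hdet
  have hW1 : W.map (derivative O) = A * W + (p : O⟦X⟧) • E' := by
    rw [← hW, Nab]; abel
  have hone : (1 : Matrix r r O⟦X⟧).map (derivative O) = 0 := by
    ext1 a b
    rw [Matrix.map_apply, Matrix.one_apply, Matrix.zero_apply]
    split_ifs <;> simp
  have hWd : W⁻¹.map (derivative O) = -(W⁻¹ * A) - (p : O⟦X⟧) • (W⁻¹ * E' * W⁻¹) := by
    have h1 := mat_leibniz (derivative O) W W⁻¹
    rw [hWi, hone, hW1] at h1
    have h2 : W * W⁻¹.map (derivative O) = -((A * W + (p : O⟦X⟧) • E') * W⁻¹) :=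
      eq_neg_of_add_eq_zero_right h1.symm
    have h3 := congrArg (fun Y => W⁻¹ * Y) h2
    simp only [← mul_assoc] at h3
    rw [hWi', one_mul] at h3
    rw [h3, add_mul, mul_assoc A, hWi, mul_one, mul_neg, mul_add, smul_mul_assoc, mul_smul_comm,
      mul_assoc W⁻¹ E']
    abel
  set V := mp φ W⁻¹ * U with hV
  have hVd : V.map (derivative F) = (p : F⟦X⟧) • (mp φ (-(W⁻¹ * E')) * V) := by
    rw [hV, mat_leibniz (derivative F), ← mp_deriv, hWd, hU, mp_sub, mp_smul]
    have h1 : PowerSeries.map φ (p : O⟦X⟧) = (p : F⟦X⟧) := map_natCast _ _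
    have hneg : ∀ Z : Matrix r r O⟦X⟧, mp φ (-Z) = -mp φ Z := by
      intro Z
      ext1 a b
      simp only [mp, Matrix.map_apply, Matrix.neg_apply, map_neg]
    have h2 : mp φ (-(W⁻¹ * A)) = -(mp φ W⁻¹ * mp φ A) := by
      rw [← mp_mul, hneg]
    have h3 : mp φ (-(W⁻¹ * E')) = -(mp φ (W⁻¹ * E')) := hneg _
    rw [h1, h2, h3, mp_mul φ (W⁻¹ * E')]
    simp only [sub_mul, neg_mul, smul_mul_assoc, mul_assoc, smul_neg]
    abel
  have hV0 : cm 0 V = 1 := by
    have h0 : Finset.HasAntidiagonal.antidiagonal 0 = {((0 : ℕ), (0 : ℕ))} := rfl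
    rw [hV, cm_mul, h0, Finset.sum_singleton, hU0, mul_one, cm_mp]
    have h1 : cm 0 (W⁻¹) = 1 := by
      have h2 := congrArg (cm 0) hWi
      rw [cm_mul, cm_one_zero] at h2
      have h3 : Finset.HasAntidiagonal.antidiagonal 0 = {((0 : ℕ), (0 : ℕ))} := rfl
      rw [h3, Finset.sum_singleton, hW0, one_mul] at h2
      exact h2
    rw [h1, Matrix.map_one _ (map_zero _) (map_one _)]
  intro m hm
  have h1 : U = mp φ W * V := by
    rw [hV, ← mul_assoc, ← mp_mul, hWi, mp_one, one_mul]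
  rw [h1]
  exact rec_sum W V m fun j hj => int_sq hpF hunit _ V hVd hV0 j (by omega)

/-- The truncated solution. -/
theorem exists_trunc (hφ : Function.Injective φ) (A : Matrix r r O⟦X⟧) (U : Matrix r r F⟦X⟧)
    (hU : U.map (derivative F) = mp φ A * U) (hU0 : cm 0 U = 1) (M : ℕ)
    (h : ∀ m, m ≤ M → IntM φ (cm m U)) :
    ∃ Y : Matrix r r O⟦X⟧, cm 0 Y = 1 ∧ Dv M (Nab A Y) := by
  have hl : ∀ m, ∃ L : Matrix r r O, m ≤ M → L.map φ = cm m U := by
    intro m
    by_cases hm : m ≤ M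
    · obtain ⟨L, hL⟩ := h m hm
      exact ⟨L, fun _ => hL⟩
    · exact ⟨0, fun h' => absurd h' hm⟩
  choose L hL using hl
  have hinj : ∀ {P Q : Matrix r r O}, P.map φ = Q.map φ → P = Q := by
    intro P Q hPQ
    ext1 a b
    exact hφ (congrFun (congrFun hPQ a) b)
  refine ⟨Matrix.of fun i j => PowerSeries.mk fun m => L m i j, ?_, ?_⟩
  · apply hinj
    rw [Matrix.map_one _ (map_zero _) (map_one _), ← hU0, ← hL 0 (Nat.zero_le _)]
    ext1 a b
    simp [cm]
  · set Y : Matrix r r O⟦X⟧ := Matrix.of fun i j => PowerSeries.mk fun m => L m i j with hY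
    have hcY : ∀ m, cm m Y = L m := by
      intro m
      ext1 a b
      simp [cm, hY]
    rw [Dv_iff]
    intro n hn
    apply hinj
    have h1 := congrArg (cm n) hU
    rw [cm_deriv, cm_mul] at h1
    rw [Nab, cm_sub, cm_deriv, cm_mul, hcY]
    have h2 : (((n + 1 : ℕ) : O) • L (n + 1)).map φ = ((n + 1 : ℕ) : F) • cm (n + 1) U := by
      rw [← hL (n + 1) (by omega)]
      ext1 a b
      simp
    have h3 : (∑ ij ∈ Finset.HasAntidiagonal.antidiagonal n, cm ij.1 A * cm ij.2 Y).map φ =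
        ∑ ij ∈ Finset.HasAntidiagonal.antidiagonal n, cm ij.1 (mp φ A) * cm ij.2 U := by
      have h4 : ∀ s : Finset (ℕ × ℕ), (∑ ij ∈ s, cm ij.1 A * cm ij.2 Y).map φ =
          ∑ ij ∈ s, (cm ij.1 A * cm ij.2 Y).map φ := by
        intro s
        ext1 a b
        simp only [Matrix.map_apply, Matrix.sum_apply, map_sum]
      rw [h4]
      refine Finset.sum_congr rfl fun ij hij => ?_
      rw [Finset.HasAntidiagonal.mem_antidiagonal] at hij
      rw [Matrix.map_mul, cm_mp, hcY, hL _ (by omega)]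
    have h5 : (((n + 1 : ℕ) : O) • L (n + 1) - ∑ ij ∈ Finset.HasAntidiagonal.antidiagonal n,
        cm ij.1 A * cm ij.2 Y).map φ = (((n + 1 : ℕ) : O) • L (n + 1)).map φ -
        (∑ ij ∈ Finset.HasAntidiagonal.antidiagonal n, cm ij.1 A * cm ij.2 Y).map φ := by
      ext1 a b
      simp
    rw [h5, h2, h3, h1, sub_self]
    ext1 a b
    simp

end Pool.Agent.X98.SC
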